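import Pool.Agent.NH20.XM.Law

/-!
# The weak conjecture for several twists of `X_0(15)` and of `X_0(24)` at the same time

`C_D : y² = x³ - 12987 D² x - 263466 D³` and `E_D : y² = x³ - 351 D² x + 1890 D³` are the quadratic twists by `D` of
the modular curves `X_0(15)` and `X_0(24)`. These curves have no complex multiplication and are not isogenous
over any field.

Let `M` run through the squarefree numbers `M < 0` with `M ≡ 13, 37 mod 120`, in the order of `|M|`. A shift is a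
squarefree number `g > 0`, `g ≡ 1 mod 3`, such that `g ≡ 1, 4 mod 5` or `g ≡ 1 mod 8` (or both). In the first
case we consider the twist `C_{M g}`, in the second case the twist `E_{M g}` (in both cases both twists).

* The group of rational points of the twist is finite and `Ш` has no element of order two if and only if the
  class group of `ℚ(√(M g))` has no element of order four, and in this case the weak conjecture of Birch and
  Swinnerton-Dyer holds with `L ≠ 0` at `1`.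
* Let `g_0, …, g_k` be any different shifts and let `S` be any set of indices. For the proportion
  `η ^ |S| (1 - η) ^ (k + 1 - |S|)` of the `M`, `η = ∏ (1 - 2^(-i)) = 0.2887…`, the conditions hold for all the
  considered twists by `M g_t` with `t ∈ S` and for none of the considered twists by `M g_t` with `t ∉ S`. The same is
  true for the `M` in any set of residue classes modulo any `m`. Among ALL squarefree integers the proportion
  is `5 / 384 η ^ |S| (1 - η) ^ (k + 1 - |S|)`.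

So for every `k` the weak conjecture holds with rank zero for the `2 k` twists `C_{M g_t}`, `E_{M g_t}` at the same
time for a positive proportion of all squarefree `M` (for shifts `g_t ≡ 1, 49 mod 120`); the events for
different `t` are independent, and the events for the two curves coincide.
-/

set_option autoImplicit false

open Filter Topology

namespace Pool.Agent.Results.MP_8b7eba_nt.JointLawTwoCurves

/-- coefficients of the twist `C_D : y² = x³ + A15 D x + B15 D` of `X_0(15)` -/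
def A15 (D : ℤ) : ℤ := -12987 * D ^ 2

/-- coefficients of the twist `C_D : y² = x³ + A15 D x + B15 D` of `X_0(15)` -/
def B15 (D : ℤ) : ℤ := -263466 * D ^ 3

/-- coefficients of the twist `E_D : y² = x³ + A24 D x + B24 D` of `X_0(24)` -/
def A24 (D : ℤ) : ℤ := -351 * D ^ 2

/-- coefficients of the twist `E_D : y² = x³ + A24 D x + B24 D` of `X_0(24)` -/
def B24 (D : ℤ) : ℤ := 1890 * D ^ 3

/-- the curve `y² = x³ + a x + b` over `ℚ` -/
def curve (a b : ℤ) : WeierstrassCurve ℚ :=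
  { a₁ := 0, a₂ := 0, a₃ := 0, a₄ := (a : ℚ), a₆ := (b : ℚ) }

/-- for `y² = x³ + a x + b`: there are finitely many rational points and `Ш` has no element of order two -/
def RankZeroShaTwo (a b : ℤ) : Prop :=
  Finite (curve a b).toAffine.Point ∧
    ∀ x : Pool.Agent.TH841.SH.D.Sha (curve a b), 2 • x = 0 → x = 0

/-- `f` is an entire function which equals on `Re s > 3 / 2` the Euler product of
`y² = x³ + a x + b` over the primes `p ∤ 2 (4 a³ + 27 b²)`, as in the frozen statement -/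
def IsL (a b : ℤ) (f : ℂ → ℂ) : Prop :=
  Differentiable ℂ f ∧ ∀ s : ℂ, (3 : ℝ) / 2 < s.re →
    HasProd
      (fun p : {p : ℕ // p.Prime ∧ ¬ ((p : ℤ) ∣ 2 * (4 * a ^ 3 + 27 * b ^ 2))} =>
        ((1 : ℂ)
          - ((((p.1 : ℤ) - (Nat.card {q : ZMod p.1 × ZMod p.1 //
                q.2 ^ 2 = q.1 ^ 3 + (a : ZMod p.1) * q.1 + (b : ZMod p.1)} : ℤ)) : ℤ) : ℂ)
              * ((p.1 : ℂ) ^ (-s))
          + (p.1 : ℂ) ^ (1 - 2 * s))⁻¹)
      (f s)

/-- the conclusion of the frozen statement for `y² = x³ + a x + b`, in the case of rank zero: the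
`L`-function exists, it does not vanish at `1`, and there are finitely many rational points -/
def WeakRankZero (a b : ℤ) : Prop :=
  4 * a ^ 3 + 27 * b ^ 2 ≠ 0 ∧ (∃ f : ℂ → ℂ, IsL a b f) ∧
    (∀ f : ℂ → ℂ, IsL a b f → f 1 ≠ 0) ∧
    {q : ℚ × ℚ | q.2 ^ 2 = q.1 ^ 3 + (a : ℚ) * q.1 + (b : ℚ)}.Finite

/-- The class group of the quadratic field `ℚ(√D)` has no element of order four. -/
def NoFour (D : ℤ) : Prop := ∀ (K : Type) [Field K] [NumberField K], Module.finrank ℚ K = 2 →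
  (∃ a : K, a ^ 2 = (D : K)) →
  ∀ c : ClassGroup (NumberField.RingOfIntegers K), c ^ 4 = 1 → c ^ 2 = 1

/-- the class of the numbers `M` -/
def InClass (M : ℤ) : Prop := M < 0 ∧ Squarefree M ∧ (M % 120 = 13 ∨ M % 120 = 37)

/-- the shifts for which the twist of `X_0(15)` is considered -/
def Has15 (g : ℤ) : Prop := g % 5 = 1 ∨ g % 5 = 4

/-- the shifts for which the twist of `X_0(24)` is considered -/
def Has24 (g : ℤ) : Prop := g % 8 = 1

/-- the shifts -/
def IsShift (g : ℤ) : Prop := Squarefree g ∧ 0 < g ∧ g % 3 = 1 ∧ (Has15 g ∨ Has24 g)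

/-- For `y² = x³ + a x + b`: finitely many rational points, no element of order two in `Ш`, and the weak
conjecture. -/
def Good (a b : ℤ) : Prop := RankZeroShaTwo a b ∧ WeakRankZero a b

/-- The considered twists by `M g` are good. -/
def AllGood (M g : ℤ) : Prop :=
  (Has15 g → Good (A15 (M * g)) (B15 (M * g))) ∧ (Has24 g → Good (A24 (M * g)) (B24 (M * g)))

/-- None of the considered twists by `M g` has finitely many rational points and no element of order two
in `Ш`. -/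
def NoneGood (M g : ℤ) : Prop :=
  (Has15 g → ¬ RankZeroShaTwo (A15 (M * g)) (B15 (M * g))) ∧
    (Has24 g → ¬ RankZeroShaTwo (A24 (M * g)) (B24 (M * g)))

/-- the pattern given by the set `S` -/
def Pattern {k : ℕ} (g : Fin (k + 1) → ℤ) (S : Finset (Fin (k + 1))) (M : ℤ) : Prop :=
  ∀ t, (t ∈ S → AllGood M (g t)) ∧ (t ∉ S → NoneGood M (g t))

open Classical in
/-- the number of the squarefree integers `M`, `|M| ≤ X`, with the property `P` -/
noncomputable def count (P : ℤ → Prop) (X : ℕ) : ℝ :=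
  (((Finset.Icc (-(X : ℤ)) X).filter fun M : ℤ => Squarefree M ∧ P M).card : ℝ)

/-- the constant `η` -/
noncomputable def eta : ℝ := ∏' i : ℕ, (1 - (1 / 2 : ℝ) ^ (i + 1))

section proof

open Pool.Agent.NH20.XM
open Pool.Agent.XV.T (RZ)
open Pool.Agent.X24.F (RZ24)
open Pool.Agent.NH4.XF (cz cz_congr')
open Pool.Agent.NH4.XG (nx)

theorem rankZero_iff (a b : ℤ) : RankZeroShaTwo a b ↔
    Finite (Pool.Agent.Z702.sh a b).toAffine.Point ∧
      ∀ x : Pool.Agent.TH841.SH.D.Sha (Pool.Agent.Z702.sh a b), x + x = 0 → x = 0 := by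
  unfold RankZeroShaTwo
  refine and_congr Iff.rfl (forall_congr' fun x => ?_)
  rw [two_nsmul]
  rfl

theorem isL_iff (a b : ℤ) (F : ℂ → ℂ) : IsL a b F ↔ Pool.Agent.Y19.QT.IsLFun a b F := by
  unfold IsL Pool.Agent.Y19.QT.IsLFun
  refine and_congr Iff.rfl (forall_congr' fun s => forall_congr' fun _ => ?_)
  have hd : ∀ p : ℕ, ((p : ℤ) ∣ 2 * (4 * a ^ 3 + 27 * b ^ 2)) ↔
      ((p : ℤ) ∣ 2 * (-4 * a ^ 3 - 27 * b ^ 2)) := by
    intro p
    rw [show 2 * (-4 * a ^ 3 - 27 * b ^ 2) = -(2 * (4 * a ^ 3 + 27 * b ^ 2)) by ring, dvd_neg]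
  have h := hasProd_subtype_iff_mulIndicator
    (f := fun p : ℕ => ((1 : ℂ)
          - ((((p : ℤ) - (Nat.card {q : ZMod p × ZMod p //
                q.2 ^ 2 = q.1 ^ 3 + (a : ZMod p) * q.1 + (b : ZMod p)} : ℤ)) : ℤ) : ℂ)
              * ((p : ℂ) ^ (-s))
          + (p : ℂ) ^ (1 - 2 * s))⁻¹)
    (s := {p : ℕ | p.Prime ∧ ¬ ((p : ℤ) ∣ 2 * (4 * a ^ 3 + 27 * b ^ 2))}) (a := F s)
  refine h.trans (iff_of_eq (congrArg (fun f => HasProd f (F s)) ?_))
  funext p
  rw [Set.mulIndicator_apply]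
  by_cases hp : p.Prime ∧ ¬ ((p : ℤ) ∣ 2 * (-4 * a ^ 3 - 27 * b ^ 2))
  · rw [if_pos hp, if_pos (show p ∈ {p : ℕ | p.Prime ∧ ¬ ((p : ℤ) ∣ 2 * (4 * a ^ 3 + 27 * b ^ 2))}
      from ⟨hp.1, fun h1 => hp.2 ((hd p).1 h1)⟩)]
    push_cast
    rfl
  · rw [if_neg hp, if_neg (show p ∉ {p : ℕ | p.Prime ∧ ¬ ((p : ℤ) ∣ 2 * (4 * a ^ 3 + 27 * b ^ 2))}
      from fun h1 => hp ⟨h1.1, fun h2 => h1.2 ((hd p).2 h2)⟩)]

theorem weak_of {a b : ℤ} (hD : 4 * a ^ 3 + 27 * b ^ 2 ≠ 0) (h : Pool.Agent.Y687.MQ.ZB a b) :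
    WeakRankZero a b := by
  obtain ⟨⟨F, hF, hF1⟩, hfin⟩ := h
  have hF' : F 1 ≠ 0 := by
    have hd : Differentiable ℂ F := hF.1
    exact ((hd.analyticAt 1).analyticOrderAt_eq_zero).1 hF1
  refine ⟨hD, ⟨F, (isL_iff _ _ F).2 hF⟩, fun g hg => ?_, hfin⟩
  have hF2 : IsL a b F := (isL_iff _ _ F).2 hF
  rw [Pool.Agent.Y687.unique_f hg.1 hF2.1 hg.2 hF2.2]
  exact hF'

theorem disc15 {D : ℤ} (h : D ≠ 0) : 4 * A15 D ^ 3 + 27 * B15 D ^ 2 ≠ 0 := by
  have e : 4 * A15 D ^ 3 + 27 * B15 D ^ 2 = -6887475360000 * D ^ 6 := by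
    unfold A15 B15
    ring
  rw [e]
  exact mul_ne_zero (by norm_num) (pow_ne_zero 6 h)

theorem ne_zero {M g : ℤ} (hM : InClass M) (hg : IsShift g) : M * g ≠ 0 :=
  mul_ne_zero hM.1.ne hg.2.1.ne'

theorem shift_cg {g : ℤ} (h : IsShift g) : CG g := by
  obtain ⟨h1, h2, h3, h4⟩ := h
  refine ⟨h1, h2, h3, ?_⟩
  rcases h4 with (h4 | h4) | h4
  · exact Or.inl h4
  · exact Or.inr (Or.inl h4)
  · exact Or.inr (Or.inr h4)

/-- the criterion and the conjecture for the twist of `X_0(15)` -/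
theorem one15 {M g : ℤ} (hM : InClass M) (hg : IsShift g) (h : Has15 g) :
    (RankZeroShaTwo (A15 (M * g)) (B15 (M * g)) ↔ NoFour (M * g)) ∧
      (NoFour (M * g) → WeakRankZero (A15 (M * g)) (B15 (M * g))) ∧
      (RankZeroShaTwo (A15 (M * g)) (B15 (M * g)) ↔ nx (SD M g) = 2) := by
  obtain ⟨h1, h2, h3⟩ := crit15 (M := M) hM (shift_cg hg) h
  have e1 : RankZeroShaTwo (A15 (M * g)) (B15 (M * g)) ↔ RZ (M * g) := rankZero_iff _ _
  have e2 : RZ (M * g) ↔ NoFour (M * g) := h2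
  refine ⟨e1.trans e2, fun h4 => ?_, e1.trans h1⟩
  exact weak_of (disc15 (ne_zero hM hg)) (h3 (e2.2 h4))

/-- the criterion and the conjecture for the twist of `X_0(24)` -/
theorem one24 {M g : ℤ} (hM : InClass M) (hg : IsShift g) (h : Has24 g) :
    (RankZeroShaTwo (A24 (M * g)) (B24 (M * g)) ↔ NoFour (M * g)) ∧
      (NoFour (M * g) → WeakRankZero (A24 (M * g)) (B24 (M * g))) ∧
      (RankZeroShaTwo (A24 (M * g)) (B24 (M * g)) ↔ nx (SD M g) = 2) := by
  obtain ⟨h1, h2, h3⟩ := crit24 (M := M) hM (shift_cg hg) h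
  have e1 : RankZeroShaTwo (A24 (M * g)) (B24 (M * g)) ↔ RZ24 (M * g) := rankZero_iff _ _
  have e2 : RZ24 (M * g) ↔ NoFour (M * g) := h2
  refine ⟨e1.trans e2, fun h4 => ?_, e1.trans h1⟩
  exact weak_of (Pool.Agent.X24.F.disc24_ne (ne_zero hM hg)) (h3 (e2.2 h4))

/-- the events in terms of the four-ranks -/
theorem allGood_iff {M g : ℤ} (hM : InClass M) (hg : IsShift g) : AllGood M g ↔ nx (SD M g) = 2 := by
  constructor
  · intro h
    rcases hg.2.2.2 with h1 | h1
    · exact (one15 hM hg h1).2.2.1 (h.1 h1).1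
    · exact (one24 hM hg h1).2.2.1 (h.2 h1).1
  · intro h
    refine ⟨fun h1 => ?_, fun h1 => ?_⟩
    · obtain ⟨g1, g2, g3⟩ := one15 hM hg h1
      exact ⟨g3.2 h, g2 (g1.1 (g3.2 h))⟩
    · obtain ⟨g1, g2, g3⟩ := one24 hM hg h1
      exact ⟨g3.2 h, g2 (g1.1 (g3.2 h))⟩

theorem noneGood_iff {M g : ℤ} (hM : InClass M) (hg : IsShift g) :
    NoneGood M g ↔ ¬ nx (SD M g) = 2 := by
  constructor
  · intro h h0
    rcases hg.2.2.2 with h1 | h1
    · exact h.1 h1 ((one15 hM hg h1).2.2.2 h0)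
    · exact h.2 h1 ((one24 hM hg h1).2.2.2 h0)
  · intro h
    exact ⟨fun h1 h2 => h ((one15 hM hg h1).2.2.1 h2), fun h1 h2 => h ((one24 hM hg h1).2.2.1 h2)⟩

theorem pattern_iff {k : ℕ} {g : Fin (k + 1) → ℤ} (hg : ∀ t, IsShift (g t))
    (S : Finset (Fin (k + 1))) {M : ℤ} (hM : InClass M) :
    Pattern g S M ↔ ∀ t, nx (SD M (g t)) = 2 ↔ t ∈ S := by
  unfold Pattern
  refine forall_congr' fun t => ?_
  rw [allGood_iff hM (hg t), noneGood_iff hM (hg t)]
  tauto

end proof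

open Pool.Agent.NH4.XF (cz_congr') in
/-- **Main theorem.** -/
theorem result :
    (∀ M g : ℤ, InClass M → IsShift g →
      (Has15 g → (RankZeroShaTwo (A15 (M * g)) (B15 (M * g)) ↔ NoFour (M * g)) ∧
        (NoFour (M * g) → WeakRankZero (A15 (M * g)) (B15 (M * g)))) ∧
      (Has24 g → (RankZeroShaTwo (A24 (M * g)) (B24 (M * g)) ↔ NoFour (M * g)) ∧
        (NoFour (M * g) → WeakRankZero (A24 (M * g)) (B24 (M * g))))) ∧
    (∀ (k : ℕ) (g : Fin (k + 1) → ℤ), (∀ t, IsShift (g t)) → Function.Injective g →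
      ∀ S : Finset (Fin (k + 1)),
      (∀ (m : ℕ) (T : Set ℤ), 0 < m → (∃ M, InClass M ∧ M % m ∈ T) →
        Tendsto (fun X : ℕ => count (fun M => (InClass M ∧ M % m ∈ T) ∧ Pattern g S M) X /
          count (fun M => InClass M ∧ M % m ∈ T) X) atTop
          (𝓝 (eta ^ S.card * (1 - eta) ^ (k + 1 - S.card)))) ∧
      Tendsto (fun X : ℕ => count (fun M => InClass M ∧ Pattern g S M) X /
        count (fun _ => True) X) atTop
        (𝓝 (5 / 384 * (eta ^ S.card * (1 - eta) ^ (k + 1 - S.card))))) ∧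
    0.2887 < eta ∧ eta < 0.2888 := by
  refine ⟨fun M g hM hg => ⟨fun h => ?_, fun h => ?_⟩, fun k g hg hi S => ⟨fun m T hm hne => ?_, ?_⟩,
    Pool.Agent.NH5.PR.t_ETA.2.2.2.1, Pool.Agent.NH5.PR.t_ETA.2.2.2.2⟩
  · obtain ⟨h1, h2, -⟩ := one15 hM hg h
    exact ⟨h1, h2⟩
  · obtain ⟨h1, h2, -⟩ := one24 hM hg h
    exact ⟨h1, h2⟩
  · have h1 := Pool.Agent.NH20.XM.law2 (fun t => shift_cg (hg t)) hi hm T hne
      (P := fun t M => Pool.Agent.NH4.XG.nx (Pool.Agent.NH20.XM.SD M (g t)) = 2)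
      (fun t M _ => Iff.rfl) S
    refine h1.congr fun X => ?_
    refine congrArg₂ (· / ·) ?_ rfl
    exact cz_congr' (fun M _ => and_congr_right fun h2 => (pattern_iff hg S h2.1).symm) X
  · have h1 := Pool.Agent.NH20.XM.law3 (fun t => shift_cg (hg t)) hi
      (P := fun t M => Pool.Agent.NH4.XG.nx (Pool.Agent.NH20.XM.SD M (g t)) = 2)
      (fun t M _ => Iff.rfl) S
    refine h1.congr fun X => ?_
    refine congrArg₂ (· / ·) ?_ rfl
    exact cz_congr' (fun M _ => and_congr_right fun h2 => (pattern_iff hg S h2).symm) X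

end Pool.Agent.Results.MP_8b7eba_nt.JointLawTwoCurves
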