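import Pool.Agent.NH4.XH.Fin
import Pool.Agent.NH4.XF.JL

/-!
# The weak conjecture for several twists of `X_0(15)` at the same time: the joint law in the natural order

`E_D : y² = x³ - 12987 D² x - 263466 D³` is the twist by `D` of the non-CM curve `E_1 = X_0(15)`. Let
`g_1, …, g_k` (`k ≥ 1`) be ANY different squarefree positive numbers such that `3` and `5` split in `ℚ(√g_t)`
(that is, `g_t ≡ 1 mod 3`, `g_t ≡ 1, 4 mod 5`; also `g_t = 1`), and let `M` run through the squarefree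
numbers `M < 0` such that `3` splits and `5` is inert in `ℚ(√M)` (that is, `M ≡ 1 mod 3`, `M ≡ 2, 3 mod 5`), in
the order of `|M|`. There is no condition at `2`. Consider the `k` twists `E_{M g_1}, …, E_{M g_k}`.

* `E_{M g_t}(ℚ)` is finite and `Ш(E_{M g_t}/ℚ)[2] = 0` if and only if the class group of `ℚ(√(M g_t))` has no
  element of order four, and in this case the weak conjecture of Birch and Swinnerton-Dyer holds for
  `E_{M g_t}` with `L(E_{M g_t}, 1) ≠ 0`.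
* The `k` events are independent, each has the probability `η = ∏ (1 - 2^(-i)) = 0.2887…`: for every
  subset `T` the condition holds exactly for the twists with `t ∈ T` for the proportion
  `η ^ |T| (1 - η) ^ (k - |T|)` of the `M`. These are `5 / 64 η ^ |T| (1 - η) ^ (k - |T|)` of ALL the squarefree
  integers. In particular the weak conjecture holds for all the `k` twists at the same time, with rank zero,
  for a positive proportion of all the squarefree integers `M`.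
-/

set_option autoImplicit false

open Filter Topology

namespace Pool.Agent.Results.MP_8b7eba_nt.JointLawX15

/-- coefficients of the twist `E_D : y² = x³ + A D x + B D` of `X_0(15)` -/
def A (D : ℤ) : ℤ := -12987 * D ^ 2

/-- coefficients of the twist `E_D : y² = x³ + A D x + B D` of `X_0(15)` -/
def B (D : ℤ) : ℤ := -263466 * D ^ 3

/-- the curve `E_D` over `ℚ` -/
def E (D : ℤ) : WeierstrassCurve ℚ :=
  { a₁ := 0, a₂ := 0, a₃ := 0, a₄ := (A D : ℚ), a₆ := (B D : ℚ) }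

/-- `E_D(ℚ)` is finite and `Ш(E_D/ℚ)` has no element of order two -/
def RankZeroShaTwo (D : ℤ) : Prop :=
  Finite (E D).toAffine.Point ∧ ∀ x : Pool.Agent.TH841.SH.D.Sha (E D), 2 • x = 0 → x = 0

/-- `f` is an entire function which equals on `Re s > 3 / 2` the Euler product of
`y² = x³ + a x + b` over the primes `p ∤ 2 (4 a³ + 27 b²)`, as in the frozen statement -/
def IsL (a b : ℤ) (f : ℂ → ℂ) : Prop :=
  Differentiable ℂ f ∧ ∀ s : ℂ, (3 : ℝ) / 2 < s.re →
    HasProd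
      (fun p : {p : ℕ // p.Prime ∧ ¬ ((p : ℤ) ∣ 2 * (4 * a ^ 3 + 27 * b ^ 2))} =>
        ((1 : ℂ)
          - ((((p.1 : ℤ) - (Nat.card {q : ZMod p.1 × ZMod p.1 //
                q.2 ^ 2 = q.1 ^ 3 + (a : ZMod p.1) * q.1 + (b : ZMod p.1)} : ℤ)) : ℤ) : ℂ)
              * ((p.1 : ℂ) ^ (-s))
          + (p.1 : ℂ) ^ (1 - 2 * s))⁻¹)
      (f s)

/-- the conclusion of the frozen statement for the twist by `D`, in the case of rank zero: the
`L`-function exists, it does not vanish at `1`, and there are finitely many rational points -/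
def WeakRankZero (D : ℤ) : Prop :=
  4 * A D ^ 3 + 27 * B D ^ 2 ≠ 0 ∧ (∃ f : ℂ → ℂ, IsL (A D) (B D) f) ∧
    (∀ f : ℂ → ℂ, IsL (A D) (B D) f → f 1 ≠ 0) ∧
    {q : ℚ × ℚ | q.2 ^ 2 = q.1 ^ 3 + (A D : ℚ) * q.1 + (B D : ℚ)}.Finite

/-- the two properties together -/
def Good (D : ℤ) : Prop := RankZeroShaTwo D ∧ WeakRankZero D

/-- The class group of the quadratic field `ℚ(√D)` has no element of order four. -/
def NoFour (D : ℤ) : Prop := ∀ (K : Type) [Field K] [NumberField K], Module.finrank ℚ K = 2 →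
  (∃ a : K, a ^ 2 = (D : K)) →
  ∀ c : ClassGroup (NumberField.RingOfIntegers K), c ^ 4 = 1 → c ^ 2 = 1

/-- the class of the numbers `M` -/
def InClass (M : ℤ) : Prop := Squarefree M ∧ M < 0 ∧ M % 3 = 1 ∧ (M % 5 = 2 ∨ M % 5 = 3)

/-- the numbers `g_t` -/
def IsShift (g : ℤ) : Prop := Squarefree g ∧ 0 < g ∧ g % 3 = 1 ∧ (g % 5 = 1 ∨ g % 5 = 4)

open Classical in
/-- the number of the squarefree integers `M`, `|M| ≤ X`, with the property `P` -/
noncomputable def count (P : ℤ → Prop) (X : ℕ) : ℝ :=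
  (((Finset.Icc (-(X : ℤ)) X).filter fun M : ℤ => Squarefree M ∧ P M).card : ℝ)

/-- the constant `η` -/
noncomputable def eta : ℝ := ∏' i : ℕ, (1 - (1 / 2 : ℝ) ^ (i + 1))

section proof

open Pool.Agent.NH4 Pool.Agent.NH4.XH Pool.Agent.XV.T
open Pool.Agent.NH4.XF (cz cz_congr' patterns rz_scale)

theorem rankZero_iff (D : ℤ) : RankZeroShaTwo D ↔ RZ D := by
  unfold RankZeroShaTwo RZ
  refine and_congr Iff.rfl (forall_congr' fun x => ?_)
  rw [two_nsmul]
  rfl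

theorem isL_iff (a b : ℤ) (F : ℂ → ℂ) : IsL a b F ↔ Pool.Agent.Y19.QT.IsLFun a b F := by
  unfold IsL Pool.Agent.Y19.QT.IsLFun
  refine and_congr Iff.rfl (forall_congr' fun s => forall_congr' fun _ => ?_)
  have hd : ∀ p : ℕ, ((p : ℤ) ∣ 2 * (4 * a ^ 3 + 27 * b ^ 2)) ↔
      ((p : ℤ) ∣ 2 * (-4 * a ^ 3 - 27 * b ^ 2)) := by
    intro p
    rw [show 2 * (-4 * a ^ 3 - 27 * b ^ 2) = -(2 * (4 * a ^ 3 + 27 * b ^ 2)) by ring, dvd_neg]
  have h := hasProd_subtype_iff_mulIndicator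
    (f := fun p : ℕ => ((1 : ℂ)
          - ((((p : ℤ) - (Nat.card {q : ZMod p × ZMod p //
                q.2 ^ 2 = q.1 ^ 3 + (a : ZMod p) * q.1 + (b : ZMod p)} : ℤ)) : ℤ) : ℂ)
              * ((p : ℂ) ^ (-s))
          + (p : ℂ) ^ (1 - 2 * s))⁻¹)
    (s := {p : ℕ | p.Prime ∧ ¬ ((p : ℤ) ∣ 2 * (4 * a ^ 3 + 27 * b ^ 2))}) (a := F s)
  refine h.trans (iff_of_eq (congrArg (fun f => HasProd f (F s)) ?_))
  funext p
  rw [Set.mulIndicator_apply]
  by_cases hp : p.Prime ∧ ¬ ((p : ℤ) ∣ 2 * (-4 * a ^ 3 - 27 * b ^ 2))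
  · rw [if_pos hp, if_pos (show p ∈ {p : ℕ | p.Prime ∧ ¬ ((p : ℤ) ∣ 2 * (4 * a ^ 3 + 27 * b ^ 2))}
      from ⟨hp.1, fun h1 => hp.2 ((hd p).1 h1)⟩)]
    push_cast
    rfl
  · rw [if_neg hp, if_neg (show p ∉ {p : ℕ | p.Prime ∧ ¬ ((p : ℤ) ∣ 2 * (4 * a ^ 3 + 27 * b ^ 2))}
      from fun h1 => hp ⟨h1.1, fun h2 => h1.2 ((hd p).2 h2)⟩)]

theorem weak_of {D : ℤ} (hD : D ≠ 0) (h : Pool.Agent.Y687.MQ.ZB (-12987 * D ^ 2) (-263466 * D ^ 3)) :
    WeakRankZero D := by
  obtain ⟨⟨F, hF, hF1⟩, hfin⟩ := h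
  have hF' : F 1 ≠ 0 := by
    have hd : Differentiable ℂ F := hF.1
    exact ((hd.analyticAt 1).analyticOrderAt_eq_zero).1 hF1
  refine ⟨?_, ⟨F, (isL_iff _ _ F).2 hF⟩, fun g hg => ?_, hfin⟩
  · have e : 4 * A D ^ 3 + 27 * B D ^ 2 = -6887475360000 * D ^ 6 := by
      unfold A B
      ring
    rw [e]
    exact mul_ne_zero (by norm_num) (pow_ne_zero 6 hD)
  · have hF2 : IsL (A D) (B D) F := (isL_iff _ _ F).2 hF
    rw [Pool.Agent.Y687.unique_f hg.1 hF2.1 hg.2 hF2.2]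
    exact hF'

theorem noFour_scale {D k : ℤ} (hk : k ≠ 0) : NoFour (D * k ^ 2) ↔ NoFour D := by
  unfold NoFour
  refine forall_congr' fun K => forall_congr' fun _ => forall_congr' fun _ => forall_congr' fun _ =>
    imp_congr ?_ Iff.rfl
  have hkK : (k : K) ≠ 0 := by exact_mod_cast hk
  constructor
  · rintro ⟨a, ha⟩
    refine ⟨a / k, ?_⟩
    rw [div_pow, ha]
    push_cast
    field_simp
  · rintro ⟨a, ha⟩
    refine ⟨a * k, ?_⟩
    rw [mul_pow, ha]
    push_cast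
    rfl

theorem isA_of {g : ℤ} (h : IsShift g) : IsA g :=
  ⟨g, 1, ⟨h.2.1, h.1, h.2.2⟩, one_ne_zero, by ring⟩

theorem db_of_class {M : ℤ} (h : InClass M) : DB M := ⟨h.2.1, h.1, h.2.2⟩

/-- the criterion and the conjecture for one twist -/
theorem one (h : S_HOUT) {M g : ℤ} (hM : InClass M) (hg : IsShift g) :
    (RankZeroShaTwo (M * g) ↔ NoFour (M * g)) ∧ (RankZeroShaTwo (M * g) → WeakRankZero (M * g)) := by
  obtain ⟨D, k, h1, -, h2, h3⟩ := (upB_self (db_of_class hM)).mul_A (isA_of hg)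
  rw [rankZero_iff, h3, noFour_scale h2, rz_scale h1.1.ne h2]
  refine ⟨?_, fun h4 => ?_⟩
  · rw [rz_noFour h1]
    exact Iff.rfl
  · refine weak_of (mul_ne_zero h1.1.ne (pow_ne_zero 2 h2)) ?_
    exact Pool.Agent.Y687.MQ.ZB_scale (by norm_num) h1.1.ne h2 (zb_of h h1 h4)

theorem not_square {g g' : ℤ} (h : IsShift g) (h' : IsShift g') (hne : g ≠ g') :
    ¬ IsSquare (g * g') := by
  rintro ⟨r, hr⟩
  apply hne
  have hr0 : r ≠ 0 := by
    rintro rfl
    have := mul_pos h.2.1 h'.2.1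
    omega
  refine PF.sqf_unique h.1 h'.1 (k := g') (k' := r) h'.2.1.ne' hr0 ?_
  linear_combination g' * hr

theorem count_eq (P : ℤ → Prop) (X : ℕ) : count P X = cz P X := rfl

theorem law (h : S_HOUT) {k : ℕ} {g : Fin (k + 1) → ℤ} (hg : ∀ t, IsShift (g t))
    (hi : Function.Injective g) (T : Finset (Fin (k + 1))) (hT : T.Nonempty) :
    Tendsto (fun X : ℕ => cz (fun M => InClass M ∧ ∀ t ∈ T, Good (M * g t)) X / cz InClass X) atTop
        (𝓝 (eta ^ T.card)) ∧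
      Tendsto (fun X : ℕ => cz (fun M => InClass M ∧ ∀ t ∈ T, Good (M * g t)) X /
        cz (fun _ => True) X) atTop (𝓝 (5 / 64 * eta ^ T.card)) := by
  have : Nonempty T := hT.to_subtype
  have h1 := joint_zero XG.f_XGDEN h (ι := T) (g := fun t => g t.1) (fun t => isA_of (hg t.1))
    (fun t t' hne => not_square (hg t.1) (hg t'.1) fun e => hne (Subtype.ext (hi e)))
  rw [Fintype.card_coe] at h1
  have e1 : ∀ X : ℕ, cz (fun M => (M < 0 ∧ M % 3 = 1 ∧ (M % 5 = 2 ∨ M % 5 = 3)) ∧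
      ∀ t : T, RZ (M * g t.1)) X = cz (fun M => InClass M ∧ ∀ t ∈ T, Good (M * g t)) X := by
    refine fun X => cz_congr' (fun M hM => ?_) X
    constructor
    · rintro ⟨h2, h3⟩
      have hc : InClass M := ⟨hM, h2⟩
      refine ⟨hc, fun t ht => ?_⟩
      have h4 := (rankZero_iff _).2 (h3 ⟨t, ht⟩)
      exact ⟨h4, (one h hc (hg t)).2 h4⟩
    · rintro ⟨h2, h3⟩
      exact ⟨h2.2, fun t => (rankZero_iff _).1 (h3 t.1 t.2).1⟩
  have e2 : ∀ X : ℕ, cz (fun M => M < 0 ∧ M % 3 = 1 ∧ (M % 5 = 2 ∨ M % 5 = 3)) X = cz InClass X :=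
    fun X => cz_congr' (fun M hM => ⟨fun h2 => ⟨hM, h2⟩, fun h2 => h2.2⟩) X
  simp only [e1, e2] at h1
  exact h1

end proof

open Pool.Agent.NH4.XF (cz cz_congr' patterns) in
/-- **Main theorem.** -/
theorem result :
    (∀ M g : ℤ, InClass M → IsShift g → (RankZeroShaTwo (M * g) ↔ NoFour (M * g)) ∧
      (RankZeroShaTwo (M * g) → WeakRankZero (M * g))) ∧
    (∀ (k : ℕ) (g : Fin (k + 1) → ℤ), (∀ t, IsShift (g t)) → Function.Injective g →
      ∀ T : Finset (Fin (k + 1)),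
      Tendsto (fun X : ℕ => count (fun M => InClass M ∧ ∀ t, Good (M * g t) ↔ t ∈ T) X /
        count InClass X) atTop (𝓝 (eta ^ T.card * (1 - eta) ^ (k + 1 - T.card))) ∧
      Tendsto (fun X : ℕ => count (fun M => InClass M ∧ ∀ t, Good (M * g t) ↔ t ∈ T) X /
        count (fun _ => True) X) atTop
        (𝓝 (5 / 64 * (eta ^ T.card * (1 - eta) ^ (k + 1 - T.card))))) ∧
    0.2887 < eta ∧ eta < 0.2888 := by
  have h : Pool.Agent.NH4.XH.S_HOUT := Pool.Agent.NH4.XH.f_HOUT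
  refine ⟨fun M g hM hg => one h hM hg, fun k g hg hi T => ?_, Pool.Agent.NH5.PR.t_ETA.2.2.2.1,
    Pool.Agent.NH5.PR.t_ETA.2.2.2.2⟩
  have hx : eta ≠ 0 := by
    have : (0.2887 : ℝ) < eta := Pool.Agent.NH5.PR.t_ETA.2.2.2.1
    linarith
  have h1 := patterns (ι := Fin (k + 1)) (P := fun t M => Good (M * g t)) (Cl := InClass) hx
    (fun T hT => law h hg hi T hT) T Tᶜ disjoint_compl_right
  rw [Finset.card_compl, Fintype.card_fin] at h1
  have e1 : ∀ X : ℕ, cz (fun M => InClass M ∧ (∀ t ∈ T, Good (M * g t)) ∧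
      ∀ t ∈ Tᶜ, ¬ Good (M * g t)) X = cz (fun M => InClass M ∧ ∀ t, Good (M * g t) ↔ t ∈ T) X := by
    refine fun X => cz_congr' (fun M _ => and_congr_right fun _ => ?_) X
    constructor
    · rintro ⟨h2, h3⟩ t
      by_cases ht : t ∈ T
      · exact iff_of_true (h2 t ht) ht
      · exact iff_of_false (h3 t (Finset.mem_compl.2 ht)) ht
    · intro h2
      exact ⟨fun t ht => (h2 t).2 ht, fun t ht h3 => Finset.mem_compl.1 ht ((h2 t).1 h3)⟩
  simp only [e1] at h1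
  exact h1

end Pool.Agent.Results.MP_8b7eba_nt.JointLawX15
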