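import Pool.Agent.NH3.FK.Joint2
import Pool.Agent.R413.SQ.Weak
import Pool.Agent.R413.SJ.ShaQ
import Pool.Agent.Y687.JQ.Sha
import Pool.Agent.Y687.MQ.Fin
import Pool.Agent.Y703.CQ.Cor

/-!
# The weak conjecture of Birch and Swinnerton-Dyer for two curves at the same time: the joint law for
# the twists by products of primes from arbitrary sparse sets

We consider the quadratic twists by `D` of the non-CM curve `X_0(14)` and of the CM curve `X_0(49)`. Let
`P` be an ARBITRARY set of numbers `≤ X`. The primes in `P` which are `1` modulo `8` and split in `ℚ(√-7)`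
are of the kind `Same` or `Diff`, according to whether the two conditions (`8` divides the number of the
points of `X_0(14)` modulo `p`; `-7` is a fourth power modulo `p`) are equivalent or not; the primes
of the kind `Inert` are `5` modulo `8` and inert in `ℚ(√-7)`. We fix numbers `a`, `b`, `c`, with `c > 0` even,
and assume that `P` contains at least `X ^ (2/3 + ε)` primes of each kind which is used. Then there are
exactly `C(n_S, a) C(n_D, b) C(n_I, c)` products `D` of `a`, `b`, `c` different primes of the kinds in `P`. For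
all of them and both curves: if there are finitely many rational points and no element of order two in `Ш`,
then the weak conjecture holds for the twist (the Euler product extends to an entire function which does
not vanish at `1`, and the set of the rational points is finite). And for the four possibilities for the
two curves (the property holds or does not hold for the twist of `X_0(14)`, and for the twist of `X_0(49)`)
the proportion of the `D` is, with an error at most `C X ^ (-ε / 2)`, the fraction of the symmetric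
matrices `M` of size `a + b` over the field with two elements such that `M` is (is not) nonsingular, and
`M + diag (0, …, 0, 1, …, 1)` (`b` ones) is (is not) nonsingular.

For example, for `a = 0`, `b = 1` the conjecture is proved in this way for exactly one of the two curves, for
almost all `D`; for `a = 0`, `b = 2` for both curves with the proportion `1/4`.

Proof: the two matrices of quadratic symbols which decide have the same entries outside of the diagonal
(project MQ for `X_0(14)`; helper428 and helper413 for `X_0(49)`); bilinear sums of quadratic symbols over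
arbitrary sets of primes (`Pool/Agent/NH3/FK/Bil`); all colourings of `P` by the indices, to reduce to boxes.
-/

set_option autoImplicit false

open Finset

namespace Pool.Agent.Results.MP_8b7eba_nt.JointSparsePrimeSets

/-- the coefficient `a` of the twist `y² = x³ + a x + b` by `N` of `X_0(49)` (`c = true`) and of
`X_0(14)` (`c = false`) -/
def A (c : Bool) (N : ℤ) : ℤ := if c = true then -35 * N ^ 2 else 5805 * N ^ 2

/-- the coefficient `b` of the twist `y² = x³ + a x + b` by `N` of `X_0(49)` (`c = true`) and of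
`X_0(14)` (`c = false`) -/
def B (c : Bool) (N : ℤ) : ℤ := if c = true then -98 * N ^ 3 else -285714 * N ^ 3

/-- the twist by `N` over `ℚ` -/
def E (c : Bool) (N : ℤ) : WeierstrassCurve ℚ :=
  { a₁ := 0, a₂ := 0, a₃ := 0, a₄ := (A c N : ℚ), a₆ := (B c N : ℚ) }

/-- `E_N(ℚ)` is finite and `Ш(E_N/ℚ)` has no element of order two -/
def RankZeroShaTwo (c : Bool) (N : ℤ) : Prop :=
  Finite (E c N).toAffine.Point ∧ ∀ x : Pool.Agent.TH841.NF.D.Sha (E c N), 2 • x = 0 → x = 0

/-- `f` is an entire function which equals on `Re s > 3 / 2` the Euler product of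
`y² = x³ + a x + b` over the primes `p ∤ 2 (4 a³ + 27 b²)`, as in the frozen statement -/
def IsL (a b : ℤ) (f : ℂ → ℂ) : Prop :=
  Differentiable ℂ f ∧ ∀ s : ℂ, (3 : ℝ) / 2 < s.re →
    HasProd
      (fun p : {p : ℕ // p.Prime ∧ ¬ ((p : ℤ) ∣ 2 * (4 * a ^ 3 + 27 * b ^ 2))} =>
        ((1 : ℂ)
          - ((((p.1 : ℤ) - (Nat.card {q : ZMod p.1 × ZMod p.1 //
                q.2 ^ 2 = q.1 ^ 3 + (a : ZMod p.1) * q.1 + (b : ZMod p.1)} : ℤ)) : ℤ) : ℂ)
              * ((p.1 : ℂ) ^ (-s))
          + (p.1 : ℂ) ^ (1 - 2 * s))⁻¹)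
      (f s)

/-- the conclusion of the frozen statement for the twist by `N`, in the case of rank zero: the
`L`-function exists, it does not vanish at `1`, and there are finitely many rational points -/
def WeakRankZero (c : Bool) (N : ℤ) : Prop :=
  4 * A c N ^ 3 + 27 * B c N ^ 2 ≠ 0 ∧ (∃ f : ℂ → ℂ, IsL (A c N) (B c N) f) ∧
    (∀ f : ℂ → ℂ, IsL (A c N) (B c N) f → f 1 ≠ 0) ∧
    {q : ℚ × ℚ | q.2 ^ 2 = q.1 ^ 3 + (A c N : ℚ) * q.1 + (B c N : ℚ)}.Finite

/-- the primes `1` modulo `8` which split in `ℚ(√-7)` -/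
def Split (p : ℕ) : Prop := p.Prime ∧ p % 8 = 1 ∧ (p % 7 = 1 ∨ p % 7 = 2 ∨ p % 7 = 4)

/-- the primes `5` modulo `8` which are inert in `ℚ(√-7)` -/
def Inert (p : ℕ) : Prop := p.Prime ∧ p % 8 = 5 ∧ (p % 7 = 3 ∨ p % 7 = 5 ∨ p % 7 = 6)

/-- `8` divides the number of the points of `X_0(14)` modulo `p` -/
def Eight (p : ℕ) : Prop :=
  8 ∣ Nat.card {q : ZMod p × ZMod p // q.2 ^ 2 = q.1 ^ 3 + 5805 * q.1 - 285714} + 1

/-- `-7` is a fourth power modulo `p` -/
def Fourth (p : ℕ) : Prop := ∃ y : ZMod p, y ^ 4 = -7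

/-- the split primes for which the two conditions are equivalent -/
def Same (p : ℕ) : Prop := Split p ∧ (Eight p ↔ Fourth p)

/-- the split primes for which the two conditions are not equivalent -/
def Diff (p : ℕ) : Prop := Split p ∧ ¬ (Eight p ↔ Fourth p)

open Classical in
/-- the number of the elements of `P` with the property `Q` -/
noncomputable def num (Q : ℕ → Prop) (P : Finset ℕ) : ℕ := (P.filter Q).card

/-- the products of `a`, `b`, `c` different primes in `P` of the kinds `Same`, `Diff`, `Inert` -/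
def Family (P : Finset ℕ) (a b c : ℕ) : Set ℕ :=
  {D | Squarefree D ∧ (∀ p ∈ D.primeFactors, p ∈ P ∧ (Split p ∨ Inert p)) ∧
    num Same D.primeFactors = a ∧ num Diff D.primeFactors = b ∧ num Inert D.primeFactors = c}

/-- the fraction of the symmetric matrices `M` for which `M` is nonsingular if and only if `v` and
`M + diag (0, ..., 0, 1, ..., 1)` is nonsingular if and only if `w` -/
noncomputable def frac (a b : ℕ) (v w : Prop) : ℝ :=
  (Nat.card {M : Matrix (Fin a ⊕ Fin b) (Fin a ⊕ Fin b) (ZMod 2) // M.IsSymm ∧ (M.det ≠ 0 ↔ v) ∧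
    ((M + Matrix.diagonal (Sum.elim (fun _ => 0) fun _ => 1)).det ≠ 0 ↔ w)} : ℝ) /
  Nat.card {M : Matrix (Fin a ⊕ Fin b) (Fin a ⊕ Fin b) (ZMod 2) // M.IsSymm}

section proof

open Pool.Agent.Y703.CQ (Cl Gd ff Sp In)
open Pool.Agent.Y698.SG (n4)
open Pool.Agent.Y687.MQ (AdmD matD)
open Pool.Agent.Y687 (NN)
open Pool.Agent.NH3.FK.G (FF GG B5 kd nk kd_mem)
open Pool.Agent.Results.MP_4a9ea6_nt.TwoPartTwistsX49 (Adm mat)

/-- the criterion for `X_0(14)` -/
theorem crit14 {D : ℤ} (h : AdmD D) : RankZeroShaTwo false D ↔ (matD D).det ≠ 0 := by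
  rw [← Pool.Agent.Y687.JQ.rzs_iff h]
  unfold RankZeroShaTwo Pool.Agent.Y687.JQ.RZS
  have e : E false D = Pool.Agent.Z702.sh (5805 * D ^ 2) (-285714 * D ^ 3) := by
    unfold E A B Pool.Agent.Z702.sh
    simp
  rw [e, ← Pool.Agent.R413.SJ.ShaQ.two_iff]
  refine and_congr Iff.rfl (forall_congr' fun x => ?_)
  rw [two_nsmul]

/-- the weak conjecture for `X_0(14)` -/
theorem weak14 {D : ℤ} (h : AdmD D) (hd : (matD D).det ≠ 0) : WeakRankZero false D := by
  obtain ⟨⟨f, hf, hfp, hf1⟩, hfin⟩ := Pool.Agent.Y687.MQ.WB_D h hd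
  have eA : A false D = 5805 * D ^ 2 := by unfold A; simp
  have eB : B false D = -285714 * D ^ 3 := by unfold B; simp
  unfold WeakRankZero
  rw [eA, eB]
  have hD : D ≠ 0 := h.1.ne_zero
  refine ⟨?_, ⟨f, hf, hfp⟩, ?_, hfin⟩
  · have e : 4 * (5805 * D ^ 2) ^ 3 + 27 * (-285714 * D ^ 3) ^ 2 =
        (4 * 5805 ^ 3 + 27 * 285714 ^ 2) * D ^ 6 := by ring
    rw [e]
    exact mul_ne_zero (by norm_num) (pow_ne_zero 6 hD)
  · rintro g ⟨hg1, hg2⟩
    rw [Pool.Agent.Y687.unique_f hg1 hf hg2 hfp]
    exact hf1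

/-- the criterion for `X_0(49)` -/
theorem crit49 {D : ℕ} (h : Adm D) : RankZeroShaTwo true (D : ℤ) ↔ (mat D).det ≠ 0 := by
  rw [← Pool.Agent.R413.SQ.Cor.crit h]
  unfold RankZeroShaTwo
  have e : E true (D : ℤ) = Pool.Agent.R413.SQ.Cor.ES D := by
    unfold E A B Pool.Agent.R413.SQ.Cor.ES Pool.Agent.R413.SQ.Cor.a Pool.Agent.R413.SQ.Cor.b
    simp
  rw [e]

/-- the weak conjecture for `X_0(49)` -/
theorem weak49 {D : ℕ} (h : Adm D) (hd : (mat D).det ≠ 0) : WeakRankZero true (D : ℤ) := by
  obtain ⟨⟨f, h1, h2, h3⟩, h4⟩ := Pool.Agent.R413.SQ.Cor.weak h hd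
  have eA : A true (D : ℤ) = Pool.Agent.R413.SQ.Cor.a D := by
    unfold A Pool.Agent.R413.SQ.Cor.a; simp
  have eB : B true (D : ℤ) = Pool.Agent.R413.SQ.Cor.b D := by
    unfold B Pool.Agent.R413.SQ.Cor.b; simp
  unfold WeakRankZero
  rw [eA, eB]
  refine ⟨?_, ⟨f, h1, h2⟩, ?_, h4⟩
  · have e : 4 * Pool.Agent.R413.SQ.Cor.a D ^ 3 + 27 * Pool.Agent.R413.SQ.Cor.b D ^ 2 =
        2 ^ 8 * 7 ^ 3 * (D : ℤ) ^ 6 := by
      unfold Pool.Agent.R413.SQ.Cor.a Pool.Agent.R413.SQ.Cor.b
      ring
    rw [e]
    have hD : (D : ℤ) ≠ 0 := by exact_mod_cast h.1.ne_zero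
    exact mul_ne_zero (by norm_num) (pow_ne_zero 6 hD)
  · rintro g ⟨hg1, hg2⟩
    rw [Pool.Agent.Y687.unique_f hg1 h1 hg2 h2]
    exact h3

theorem in_iff (p : ℕ) : In {5} p ↔ Inert p := by
  unfold In Inert
  rw [Finset.mem_singleton]
  constructor
  · rintro ⟨h1, -, h2, h3⟩
    exact ⟨h1, h2, h3⟩
  · rintro ⟨h1, h2, h3⟩
    refine ⟨h1, ?_, h2, h3⟩
    rintro rfl
    omega

theorem b5_iff (p : ℕ) : B5 p ↔ Split p ∨ Inert p := by
  unfold B5
  rw [in_iff]
  exact Iff.rfl

/-- the labels of a prime -/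
theorem lab (p : ℕ) : ff p + n4 p = 0 ↔ (Eight p ↔ Fourth p) := by
  have h1 : NN 1 p = Nat.card {q : ZMod p × ZMod p //
      q.2 ^ 2 = q.1 ^ 3 + 5805 * q.1 - 285714} + 1 := by
    unfold Pool.Agent.Y687.NN
    congr 1
    refine Nat.card_congr (Equiv.subtypeEquivRight fun q => ?_)
    push_cast
    constructor
    · intro h
      rw [h]
      ring
    · intro h
      rw [h]
      ring
  unfold ff n4 Eight Fourth
  rw [h1]
  by_cases h2 : 8 ∣ Nat.card {q : ZMod p × ZMod p //
      q.2 ^ 2 = q.1 ^ 3 + 5805 * q.1 - 285714} + 1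
  · rw [if_pos h2]
    by_cases h3 : ∃ y : ZMod p, y ^ 4 = -7
    · rw [if_pos h3]
      exact iff_of_true (by decide) (iff_of_true h2 h3)
    · rw [if_neg h3]
      exact iff_of_false (by decide) fun h => h3 (h.1 h2)
  · rw [if_neg h2]
    by_cases h3 : ∃ y : ZMod p, y ^ 4 = -7
    · rw [if_pos h3]
      exact iff_of_false (by decide) fun h => h2 (h.2 h3)
    · rw [if_neg h3]
      exact iff_of_true (by decide) (iff_of_false h2 h3)

theorem kd0 {p : ℕ} (h : Split p ∨ Inert p) : kd ff n4 p = 0 ↔ Same p := by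
  unfold kd Same
  rw [← lab]
  by_cases h1 : p % 8 = 1
  · have h2 : Split p := h.resolve_right fun h2 => by
      have := h2.2.1
      omega
    rw [if_pos h1]
    by_cases h3 : ff p + n4 p = 0
    · rw [if_pos h3]
      exact iff_of_true rfl ⟨h2, h3⟩
    · rw [if_neg h3]
      exact iff_of_false (by decide) fun h => h3 h.2
  · rw [if_neg h1]
    exact iff_of_false (by decide) fun h => h1 h.1.2.1

theorem kd1 {p : ℕ} (h : Split p ∨ Inert p) : kd ff n4 p = 1 ↔ Diff p := by
  unfold kd Diff
  rw [← lab]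
  by_cases h1 : p % 8 = 1
  · have h2 : Split p := h.resolve_right fun h2 => by
      have := h2.2.1
      omega
    rw [if_pos h1]
    by_cases h3 : ff p + n4 p = 0
    · rw [if_pos h3]
      exact iff_of_false (by decide) fun h => h.2 h3
    · rw [if_neg h3]
      exact iff_of_true rfl ⟨h2, h3⟩
  · rw [if_neg h1]
    exact iff_of_false (by decide) fun h => h1 h.1.2.1

theorem kd5 {p : ℕ} (h : Split p ∨ Inert p) : kd ff n4 p = 5 ↔ Inert p := by
  unfold kd
  by_cases h1 : p % 8 = 1
  · rw [if_pos h1]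
    refine iff_of_false ?_ fun h => ?_
    · split_ifs <;> decide
    · have := h.2.1
      omega
  · rw [if_neg h1]
    exact iff_of_true rfl (h.resolve_left fun h2 => h1 h2.2.1)

theorem nk_eq {S : Finset ℕ} {r : ℕ} {Q : ℕ → Prop} (hS : ∀ p ∈ S, Split p ∨ Inert p)
    (h : ∀ p, Split p ∨ Inert p → (kd ff n4 p = r ↔ Q p)) : nk (kd ff n4) r S = num Q S := by
  classical
  unfold nk num
  congr 1
  ext p
  simp only [Finset.mem_filter]
  exact and_congr_right fun hp => h p (hS p hp)

theorem fam_eq (P : Finset ℕ) (a b c : ℕ) : Family P a b c = {D : ℕ | FF ff n4 P a b c D} := by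
  ext D
  show (_ ∧ _ ∧ _ ∧ _ ∧ _) ↔ (_ ∧ _ ∧ _ ∧ _ ∧ _)
  refine and_congr_right fun _ => ?_
  have e : (∀ p ∈ D.primeFactors, p ∈ P ∧ (Split p ∨ Inert p)) ↔
      (∀ p ∈ D.primeFactors, p ∈ P ∧ B5 p) :=
    forall_congr' fun p => imp_congr_right fun _ => by rw [b5_iff]
  rw [← e]
  refine and_congr_right fun h => ?_
  have hS : ∀ p ∈ D.primeFactors, Split p ∨ Inert p := fun p hp => (h p hp).2
  rw [nk_eq hS fun p hp => kd0 hp, nk_eq hS fun p hp => kd1 hp, nk_eq hS fun p hp => kd5 hp]

/-- the numbers of the primes of the kinds in `P` -/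
theorem num_eq {P : Finset ℕ} {r : ℕ} {Q : ℕ → Prop} (hQ : ∀ p, Q p → Split p ∨ Inert p)
    (h : ∀ p, Split p ∨ Inert p → (kd ff n4 p = r ↔ Q p)) :
    num Q P = (open Classical in nk (kd ff n4) r (P.filter B5)) := by
  classical
  unfold nk num
  rw [Finset.filter_filter]
  congr 1
  ext p
  simp only [Finset.mem_filter]
  refine and_congr_right fun _ => ?_
  rw [b5_iff]
  exact ⟨fun k => ⟨hQ p k, (h p (hQ p k)).2 k⟩, fun k => (h p k.1).1 k.2⟩

/-- the class -/
theorem cls {P : Finset ℕ} {a b c : ℕ} (hc : Even c) {D : ℕ} (h : D ∈ Family P a b c) :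
    Squarefree D ∧ Cl {5} {0} D.primeFactors := by
  classical
  obtain ⟨h1, h2, -, -, h5⟩ := h
  refine ⟨h1, fun p hp => (b5_iff p).2 (h2 p hp).2, ?_, ?_⟩
  · have e : D.primeFactors.filter (fun p => p % 8 = 5) = D.primeFactors.filter Inert := by
      refine Finset.filter_congr fun p hp => ?_
      constructor
      · intro h3
        refine (h2 p hp).2.resolve_left fun h4 => ?_
        have := h4.2.1
        omega
      · exact fun h3 => h3.2.1
    have e2 : (D.primeFactors.filter Inert).card = c := by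
      rw [← h5]
      unfold num
      congr!
    rw [e, e2]
    exact Nat.even_iff.1 hc
  · have e : D.primeFactors.filter (fun p => p % 8 = 3) = ∅ := by
      rw [Finset.filter_eq_empty_iff]
      intro p hp h3
      rcases (h2 p hp).2 with h4 | h4
      · have := h4.2.1
        omega
      · have := h4.2.1
        omega
    rw [e]
    simp

/-- the classes of the two curves -/
theorem adms {P : Finset ℕ} {a b c : ℕ} (hc : Even c) {D : ℕ} (h : D ∈ Family P a b c) :
    AdmD (D : ℤ) ∧ Adm D ∧ Pool.Agent.Results.MP_4a9ea6_nt.TwoPartTwistsX49.Fam D := by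
  classical
  obtain ⟨h1, h2, h3, h4⟩ := cls hc h
  have hF := (Pool.Agent.Results.MP_4a9ea6_nt.TwoPartTwistsX49.fam_cl D).2 ⟨h1, h2, h3, h4⟩
  refine ⟨?_, Pool.Agent.Results.MP_4a9ea6_nt.TwoPartTwistsX49.fam_adm hF, hF⟩
  have h5 : Cl {3, 5} {0} D.primeFactors := by
    refine ⟨fun p hp => ?_, h3, h4⟩
    rcases h2 p hp with h6 | ⟨k1, k2, k3, k4⟩
    · exact Or.inl h6
    · refine Or.inr ⟨k1, k2, ?_, k4⟩
      rw [Finset.mem_singleton] at k3
      rw [k3]
      decide
  obtain ⟨D', h6, h7⟩ := Pool.Agent.Y703.CQ.cl_adm h1 h5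
  have h8 : 0 < D' := by
    rw [Pool.Agent.Y703.CQ.sign_iff h6, h7]
    exact Finset.mem_singleton.1 h4
  have h9 : D' = (D : ℤ) := by omega
  rw [← h9]
  exact h6

theorem g14 {P : Finset ℕ} {a b c : ℕ} (hc : Even c) {D : ℕ} (h : D ∈ Family P a b c) :
    RankZeroShaTwo false D ↔ Gd ff D.primeFactors := by
  have h1 := (adms hc h).1
  have h2 := crit14 h1
  rw [Pool.Agent.Y703.CQ.gd_iff, Int.natAbs_natCast] at h2
  exact h2

theorem g49 {P : Finset ℕ} {a b c : ℕ} (hc : Even c) {D : ℕ} (h : D ∈ Family P a b c) :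
    RankZeroShaTwo true D ↔ Gd n4 D.primeFactors := by
  obtain ⟨-, h1, h2⟩ := adms hc h
  exact (crit49 h1).trans
    ((Pool.Agent.Results.MP_4a9ea6_nt.TwoPartTwistsX49.two_iff h1).symm.trans
    (Pool.Agent.Results.MP_4a9ea6_nt.TwoPartTwistsX49.fam_two h2))

end proof

/-- **Main theorem.** -/
theorem result : ∀ (a b c : ℕ) (ε : ℝ), Even c → 0 < c → 0 < ε →
    ∃ C : ℝ, ∀ (P : Finset ℕ) (X : ℕ), 1 ≤ X → (∀ p ∈ P, p ≤ X) →
      (0 < a → (X : ℝ) ^ (2 / 3 + ε) ≤ num Same P) →
      (0 < b → (X : ℝ) ^ (2 / 3 + ε) ≤ num Diff P) →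
      (X : ℝ) ^ (2 / 3 + ε) ≤ num Inert P →
      (Family P a b c).ncard = (num Same P).choose a * (num Diff P).choose b *
        (num Inert P).choose c ∧
      (∀ D ∈ Family P a b c, ∀ e : Bool, RankZeroShaTwo e D → WeakRankZero e D) ∧
      ∀ v w : Prop, |({D | D ∈ Family P a b c ∧ (RankZeroShaTwo false D ↔ v) ∧
          (RankZeroShaTwo true D ↔ w)}.ncard : ℝ) - frac a b v w * ((Family P a b c).ncard : ℝ)| ≤
        C * (X : ℝ) ^ (-(ε / 2)) * ((Family P a b c).ncard : ℝ) := by
  classical
  intro a b c ε hc hc0 hε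
  have hex := fun v w : Prop => Pool.Agent.NH3.FK.G.joint_law Pool.Agent.Y703.CQ.ff
    Pool.Agent.Y698.SG.n4 (a := a) (b := b) hc0 hε.le v w
  choose C hC h using hex
  refine ⟨C True True + C True False + C False True + C False False,
    fun P X hX hP ha hb hc' => ?_⟩
  have n0 := num_eq (P := P) (r := 0) (Q := Same) (fun p h => Or.inl h.1) fun p hp => kd0 hp
  have n1 := num_eq (P := P) (r := 1) (Q := Diff) (fun p h => Or.inl h.1) fun p hp => kd1 hp
  have n5 := num_eq (P := P) (r := 5) (Q := Inert) (fun p h => Or.inr h) fun p hp => kd5 hp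
  refine ⟨?_, ?_, ?_⟩
  · rw [fam_eq, Pool.Agent.NH3.FK.G.card_FF, n0, n1, n5, mul_assoc]
  · intro D hD e he
    obtain ⟨h1, h2, h3⟩ := adms hc hD
    cases e
    · exact weak14 h1 ((crit14 h1).1 he)
    · exact weak49 h2 ((crit49 h2).1 he)
  · have hone : ∀ v w : Prop, |({D | D ∈ Family P a b c ∧ (RankZeroShaTwo false D ↔ v) ∧
          (RankZeroShaTwo true D ↔ w)}.ncard : ℝ) - frac a b v w * ((Family P a b c).ncard : ℝ)| ≤
        C v w * (X : ℝ) ^ (-(ε / 2)) * ((Family P a b c).ncard : ℝ) := by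
      intro v w
      have h1 := h v w P X hX hP (fun h2 => by
          have := ha h2
          rw [n0] at this
          exact this) (fun h2 => by
          have := hb h2
          rw [n1] at this
          exact this) (by
          rw [n5] at hc'
          exact hc')
      have e1 : {D | D ∈ Family P a b c ∧ (RankZeroShaTwo false D ↔ v) ∧
          (RankZeroShaTwo true D ↔ w)} = {D : ℕ | Pool.Agent.NH3.FK.G.FF Pool.Agent.Y703.CQ.ff
            Pool.Agent.Y698.SG.n4 P a b c D ∧ Pool.Agent.NH3.FK.G.GG Pool.Agent.Y703.CQ.ff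
            Pool.Agent.Y698.SG.n4 v w D.primeFactors} := by
        ext D
        show (D ∈ Family P a b c ∧ _) ↔ (_ ∧ _)
        have e2 : D ∈ Family P a b c ↔ Pool.Agent.NH3.FK.G.FF Pool.Agent.Y703.CQ.ff
            Pool.Agent.Y698.SG.n4 P a b c D := by
          rw [fam_eq]
          exact Iff.rfl
        rw [← e2]
        refine and_congr_right fun hD => ?_
        unfold Pool.Agent.NH3.FK.G.GG
        rw [g14 hc hD, g49 hc hD]
      rw [e1, fam_eq]
      exact h1
    intro v w
    have hx : 0 ≤ (X : ℝ) ^ (-(ε / 2)) * ((Family P a b c).ncard : ℝ) := by positivity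
    refine (hone v w).trans ?_
    have k1 := hC True True
    have k2 := hC True False
    have k3 := hC False True
    have k4 := hC False False
    have k5 : C v w ≤ C True True + C True False + C False True + C False False := by
      by_cases hv : v
      · by_cases hw : w
        · have ev : v = True := propext ⟨fun _ => trivial, fun _ => hv⟩
          have ew : w = True := propext ⟨fun _ => trivial, fun _ => hw⟩
          rw [ev, ew]
          linarith
        · have ev : v = True := propext ⟨fun _ => trivial, fun _ => hv⟩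
          have ew : w = False := propext ⟨fun h => hw h, fun h => h.elim⟩
          rw [ev, ew]
          linarith
      · by_cases hw : w
        · have ev : v = False := propext ⟨fun h => hv h, fun h => h.elim⟩
          have ew : w = True := propext ⟨fun _ => trivial, fun _ => hw⟩
          rw [ev, ew]
          linarith
        · have ev : v = False := propext ⟨fun h => hv h, fun h => h.elim⟩
          have ew : w = False := propext ⟨fun h => hw h, fun h => h.elim⟩
          rw [ev, ew]
          linarith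
    rw [mul_assoc, mul_assoc]
    exact mul_le_mul_of_nonneg_right k5 hx

end Pool.Agent.Results.MP_8b7eba_nt.JointSparsePrimeSets
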