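import Mathlib
import Pool.Agent.NH3.FK.CubGr2
import Pool.Agent.R419.CF.Weak

/-!
# The weak conjecture of Birch and Swinnerton-Dyer for all the cubic twists `x³ + y³ = D`, `D` a cube-free
# product of the primes of a tuple from arbitrary sparse sets, at the same time

Let `P_1, …, P_n` be ARBITRARY sets of primes `≤ X` in given classes `r_i ≡ 1` modulo `3` modulo `9`, and `P_0` an
arbitrary set of primes `≤ X` in a given class `r_0 ≡ 2` modulo `3` modulo `9`, each of them with at least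
`X ^ (6/7 + ε)` elements. For a tuple of different primes `t_i ∈ P_i` consider all the cube-free numbers
`D_e = ∏ t_i ^ e_i`, `e_i ∈ {0, 1, 2}`, `e_0 ≠ 0`, which are not `±1` modulo `9`, and the curves
`x³ + y³ = D_e`, that is `y² = x³ - 432 D_e²`; they are `3`-isogenous to `y² + D_e y = x³`.

For each of them, if `E_D(ℚ)` is finite and `Ш(E_D/ℚ)[3^∞] = 0`, then the weak conjecture holds for
`x³ + y³ = D`: the Euler product extends to an entire function which does not vanish at `1`, and there are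
finitely many rational points. And we give the joint distribution of all these events (at most `2 * 3 ^ n`
curves), up to a relative error `C X ^ (-ε / 2)`: a set `V` of exponents `e` is the set of the `e` for which
`E_{D_e}` has the property with the proportion of the matrices `a` over the field with three elements such
that `V` is the set of the `e` for which all the solutions `c` of the linear system
`∑_j (c_j - c_i) e_j a_ij = 0` (`i ≠ 0`, `e_i ≠ 0`) are constant on the support of `e`.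

For primes `t_i ≡ 1` modulo `9` (`i ≠ 0`) and `t_0 ≡ 2, 5` modulo `9` all the `2 * 3 ^ n` numbers `D_e` are
admissible; all the `2 * 3 ^ n` curves have the property if and only if `t_0` is not a cube modulo any `t_i`,
and `t_j` is a cube modulo `t_i` for all different `i, j ≠ 0`. This holds for the proportion `2 ^ n / 3 ^ (n ^ 2)` of
the tuples.

Proof: the criterion for one cube-free `D` (about forty agents, see `Pool/Agent/Y703/CT` and
`Pool/Agent/R419/CF`); bilinear sums of cubic residue symbols over arbitrary sets of primes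
(`Pool/Agent/NH3/FK/CubBil`); all colourings of the union of the sets by the indices, to reduce to
boxes (`Pool/Agent/NH3/FK/Gr`, `CubGr`).
-/

set_option autoImplicit false

open Finset

namespace Pool.Agent.Results.MP_8b7eba_nt.SparseCubicTuples

/-- `f` is an entire function which equals the Euler product of `y² = x³ + A x + B` over the primes
`p ∤ 2 (4 A³ + 27 B²)` on `Re s > 3 / 2` -/
def IsL (A B : ℤ) (f : ℂ → ℂ) : Prop :=
  Differentiable ℂ f ∧ ∀ s : ℂ, (3 : ℝ) / 2 < s.re →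
    HasProd
      (fun p : {p : ℕ // p.Prime ∧ ¬ ((p : ℤ) ∣ 2 * (4 * A ^ 3 + 27 * B ^ 2))} =>
        ((1 : ℂ)
          - ((((p.1 : ℤ) - (Nat.card {q : ZMod p.1 × ZMod p.1 //
                q.2 ^ 2 = q.1 ^ 3 + (A : ZMod p.1) * q.1 + (B : ZMod p.1)} : ℤ)) : ℤ) : ℂ)
              * ((p.1 : ℂ) ^ (-s))
          + (p.1 : ℂ) ^ (1 - 2 * s))⁻¹)
      (f s)

/-- the weak conjecture for `y² = x³ + A x + B`, with both sides false: the curve is nonsingular, the
entire `L`-function exists, it is not zero at `1`, and there are finitely many rational points -/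
def WeakRankZero (A B : ℤ) : Prop :=
  4 * A ^ 3 + 27 * B ^ 2 ≠ 0 ∧ (∃ f : ℂ → ℂ, IsL A B f) ∧ (∀ f : ℂ → ℂ, IsL A B f → f 1 ≠ 0) ∧
    {q : ℚ × ℚ | q.2 ^ 2 = q.1 ^ 3 + (A : ℚ) * q.1 + (B : ℚ)}.Finite

/-- the curve `y² + D y = x³` over `ℚ` -/
def E (D : ℕ) : WeierstrassCurve ℚ := { a₁ := 0, a₂ := 0, a₃ := (D : ℚ), a₄ := 0, a₆ := 0 }

/-- `E_D(ℚ)` is finite and `Ш(E_D/ℚ)[3^∞] = 0` -/
def TrivialThree (D : ℕ) : Prop :=
  Finite (E D).toAffine.Point ∧
    ∀ (n : ℕ) (x : Pool.Agent.TH841.SH.D.Sha (E D)), 3 ^ n • x = 0 → x = 0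

/-- the product of the `t i ^ e i`, the exponents being `0`, `1` or `2` -/
def num {n : ℕ} (t : Fin (n + 1) → ℕ) (e : Fin (n + 1) → ZMod 3) : ℕ := ∏ i, t i ^ (e i).val

open Classical in
/-- the tuples of different numbers, the `i`-th one in `P i` -/
noncomputable def Tuples {n : ℕ} (P : Fin (n + 1) → Finset ℕ) : Finset (Fin (n + 1) → ℕ) :=
  (Fintype.piFinset P).filter Function.Injective

/-- `P 0, …, P n` consist of primes `≤ X` which are `r i` modulo `9`, and each has at least `X ^ θ`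
elements -/
def Sparse (θ : ℝ) {n : ℕ} (r : Fin (n + 1) → ℕ) (X : ℕ) (P : Fin (n + 1) → Finset ℕ) : Prop :=
  1 ≤ X ∧ (∀ i, ∀ p ∈ P i, p ≤ X ∧ p.Prime ∧ p % 9 = r i % 9) ∧
    ∀ i, (X : ℝ) ^ θ ≤ ((P i).card : ℝ)

/-- the admissible exponents: `e 0 ≠ 0`, and the product of the `r i ^ e i` is not `±1` modulo `9` -/
def Adm {n : ℕ} (r : Fin (n + 1) → ℕ) (e : Fin (n + 1) → ZMod 3) : Prop :=
  e 0 ≠ 0 ∧ num r e % 9 ≠ 1 ∧ num r e % 9 ≠ 8

/-- all solutions of the linear system given by the exponents and the matrix are constant on the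
support of `e` -/
def Good {n : ℕ} (e : Fin (n + 1) → ZMod 3) (a : Fin (n + 1) → Fin (n + 1) → ZMod 3) : Prop :=
  ∀ c : Fin (n + 1) → ZMod 3, (∀ i, i ≠ 0 → e i ≠ 0 → ∑ j, (c j - c i) * (e j * a i j) = 0) →
    ∀ i, e i ≠ 0 → c i = c 0

/-- the proportion of the matrices over the field with three elements with the property `Q` -/
noncomputable def prob {n : ℕ} (Q : (Fin (n + 1) → Fin (n + 1) → ZMod 3) → Prop) : ℝ :=
  (Nat.card {a : Fin (n + 1) → Fin (n + 1) → ZMod 3 // Q a} : ℝ) /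
    Nat.card (Fin (n + 1) → Fin (n + 1) → ZMod 3)

/-- `m` is a cube modulo `p` -/
def IsCubeMod (p m : ℕ) : Prop := ∃ x : ZMod p, x ^ 3 = m

section proof

open Pool.Agent.Y703.CT (Cls NoSplit Triv3)
open Pool.Agent.Y703.CX (lam LamP)
open Pool.Agent.NH3.FK.Cg (De)

theorem three_iff (D : ℕ) : TrivialThree D ↔ Triv3 D := by
  unfold TrivialThree Triv3
  have e : Pool.Agent.Y703.CT.EQ (Pool.Agent.Y703.CT.WD D) = E D := by
    unfold Pool.Agent.Y703.CT.EQ Pool.Agent.Y703.CT.WD E WeierstrassCurve.map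
    simp
  rw [e]

variable {n : ℕ} {r t : Fin (n + 1) → ℕ} {e : Fin (n + 1) → ZMod 3}

theorem num_mod (ht : ∀ i, t i % 9 = r i % 9) : num t e % 9 = num r e % 9 := by
  have h1 : num t e ≡ num r e [MOD 9] := by
    unfold num
    exact Nat.ModEq.prod fun i _ => Nat.ModEq.pow _ (ht i)
  exact h1

theorem mod3 {a b : ℕ} (h : a % 9 = b % 9) : a % 3 = b % 3 := by omega

/-- the class and the criterion -/
theorem crit (h0 : r 0 % 3 = 2) (h1 : ∀ i, i ≠ 0 → r i % 3 = 1)
    (ht : ∀ i, (t i).Prime ∧ t i % 9 = r i % 9) (hi : Function.Injective t) (he : Adm r e) :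
    Cls (num t e) ∧ (TrivialThree (num t e) ↔ NoSplit (num t e)) ∧
      (TrivialThree (num t e) ↔ Good e fun i j => lam (t i) (t j)) := by
  have hp : ∀ i, (t i).Prime := fun i => (ht i).1
  have h9 := num_mod (t := t) (r := r) (e := e) fun i => (ht i).2
  have hC : Cls (num t e) := Pool.Agent.NH3.FK.Cg.cls hp hi (by rw [mod3 (ht 0).2]; exact h0)
    (fun i h => by rw [mod3 (ht i).2]; exact h1 i h) he.1 (by
      show num t e % 9 ≠ 1
      rw [h9]
      exact he.2.1) (by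
      show num t e % 9 ≠ 8
      rw [h9]
      exact he.2.2)
  obtain ⟨-, f, -, u, -, -, -, h3⟩ := Pool.Agent.Y703.CT.fin_all hC
  have h4 : TrivialThree (num t e) ↔ NoSplit (num t e) := (three_iff _).trans h3
  have h5 := Pool.Agent.NH3.FK.Cg.crit hp hi (by rw [mod3 (ht 0).2]; exact h0)
    (fun i h => by rw [mod3 (ht i).2]; exact h1 i h) he.1 hC
  exact ⟨hC, h4, h4.trans h5⟩

/-- the weak conjecture -/
theorem weak {D : ℕ} (hC : Cls D) (hN : NoSplit D) : WeakRankZero 0 (-432 * (D : ℤ) ^ 2) := by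
  have hD0 : (D : ℤ) ≠ 0 := by exact_mod_cast hC.1.1
  obtain ⟨⟨F, k1, k2, k3⟩, k4⟩ := Pool.Agent.R419.CF.weak hC hN
  refine ⟨?_, ⟨F, k1, k2⟩, ?_, k4⟩
  · have e : (4 * 0 ^ 3 + 27 * (-432 * (D : ℤ) ^ 2) ^ 2 : ℤ) = 27 * (432 * (D : ℤ) ^ 2) ^ 2 := by
      ring
    rw [e]
    positivity
  · intro g hg
    rw [Pool.Agent.Y687.unique_f hg.1 k1 hg.2 k2]
    exact k3

/-- the symbols and the cubes -/
theorem lam_cube {p m : ℕ} (hp : p.Prime) (h1 : p % 3 = 1) (hm : ¬ p ∣ m) :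
    lam p m = 0 ↔ IsCubeMod p m := by
  rw [(Pool.Agent.Y333.CX.t_LAM).cube p m hp h1 hm]
  unfold IsCubeMod
  constructor
  · rintro ⟨x, hx⟩
    refine ⟨(x : ZMod p), ?_⟩
    have h2 := (ZMod.intCast_zmod_eq_zero_iff_dvd _ p).2 hx
    push_cast at h2
    exact (sub_eq_zero.1 h2).symm
  · rintro ⟨x, hx⟩
    obtain ⟨y, rfl⟩ := ZMod.intCast_surjective x
    refine ⟨y, (ZMod.intCast_zmod_eq_zero_iff_dvd _ p).1 ?_⟩
    push_cast
    rw [hx, sub_self]

theorem adm_all (h0 : r 0 % 9 = 2 ∨ r 0 % 9 = 5) (h1 : ∀ i, i ≠ 0 → r i % 9 = 1) (he : e 0 ≠ 0) :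
    Adm r e := by
  have h2 : num r e ≡ (r 0) ^ (e 0).val [MOD 9] := by
    unfold num
    rw [Fin.prod_univ_succ]
    have h3 : ∏ i : Fin n, r i.succ ^ (e i.succ).val ≡ ∏ i : Fin n, 1 [MOD 9] := by
      refine Nat.ModEq.prod fun i _ => ?_
      have h4 : r i.succ ≡ 1 [MOD 9] := h1 _ (Fin.succ_ne_zero i)
      have h5 := h4.pow (e i.succ).val
      rwa [one_pow] at h5
    have h6 := (Nat.ModEq.refl (n := 9) (r 0 ^ (e 0).val)).mul h3
    rwa [Finset.prod_const_one, mul_one] at h6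
  have h3 : (r 0) ^ (e 0).val % 9 = (r 0 % 9) ^ (e 0).val % 9 := Nat.pow_mod _ _ _
  have h4 : num r e % 9 = (r 0 % 9) ^ (e 0).val % 9 := by
    rw [← h3]
    exact h2
  have h5 : (e 0).val = 1 ∨ (e 0).val = 2 := by
    revert he
    generalize e 0 = x
    revert x
    decide
  refine ⟨he, ?_, ?_⟩
  · rw [h4]
    rcases h0 with h | h <;> rcases h5 with h' | h' <;> rw [h, h'] <;> decide
  · rw [h4]
    rcases h0 with h | h <;> rcases h5 with h' | h' <;> rw [h, h'] <;> decide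

theorem mem_tup {θ : ℝ} {X : ℕ} {P : Fin (n + 1) → Finset ℕ} (hP : Sparse θ r X P)
    (h : t ∈ Tuples P) : (∀ i, (t i).Prime ∧ t i % 9 = r i % 9) ∧ Function.Injective t := by
  unfold Tuples at h
  rw [mem_filter, Fintype.mem_piFinset] at h
  exact ⟨fun i => (hP.2.1 i _ (h.1 i)).2, h.2⟩

end proof

open Classical in
/-- **The weak conjecture for all the cube-free products of the primes of a tuple from arbitrary sparse
sets.** -/
theorem result (n : ℕ) (r : Fin (n + 1) → ℕ) (hr0 : r 0 % 3 = 2) (hr1 : ∀ i, i ≠ 0 → r i % 3 = 1)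
    (ε : ℝ) (hε : 0 ≤ ε) :
    -- the weak conjecture
    (∀ t : Fin (n + 1) → ℕ, (∀ i, (t i).Prime ∧ t i % 9 = r i % 9) → Function.Injective t →
      ∀ e, Adm r e → TrivialThree (num t e) → WeakRankZero 0 (-432 * (num t e : ℤ) ^ 2)) ∧
    -- the joint distribution
    (∀ V : Finset (Fin (n + 1) → ZMod 3), ∃ C : ℝ, ∀ (X : ℕ) (P : Fin (n + 1) → Finset ℕ),
      Sparse (6 / 7 + ε) r X P →
      |(((Tuples P).filter fun t => ∀ e, Adm r e → (TrivialThree (num t e) ↔ e ∈ V)).card : ℝ) -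
        (prob fun a => ∀ e, Adm r e → (Good e a ↔ e ∈ V)) * ((Tuples P).card : ℝ)| ≤
      C * (X : ℝ) ^ (-(ε / 2)) * ((Tuples P).card : ℝ)) ∧
    -- all the curves
    ((r 0 % 9 = 2 ∨ r 0 % 9 = 5) → (∀ i, i ≠ 0 → r i % 9 = 1) →
      (∀ t : Fin (n + 1) → ℕ, (∀ i, (t i).Prime ∧ t i % 9 = r i % 9) → Function.Injective t →
        ((∀ e, e 0 ≠ 0 → TrivialThree (num t e)) ↔
          ∀ i, i ≠ 0 → ¬ IsCubeMod (t i) (t 0) ∧ ∀ j, j ≠ 0 → j ≠ i → IsCubeMod (t i) (t j))) ∧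
      ∃ C : ℝ, ∀ (X : ℕ) (P : Fin (n + 1) → Finset ℕ), Sparse (6 / 7 + ε) r X P →
      |(((Tuples P).filter fun t => ∀ e, e 0 ≠ 0 → TrivialThree (num t e) ∧
          WeakRankZero 0 (-432 * (num t e : ℤ) ^ 2)).card : ℝ) -
        2 ^ n / 3 ^ (n ^ 2) * ((Tuples P).card : ℝ)| ≤
      C * (X : ℝ) ^ (-(ε / 2)) * ((Tuples P).card : ℝ)) := by
  have hsp : ∀ {X : ℕ} {P : Fin (n + 1) → Finset ℕ}, Sparse (6 / 7 + ε) r X P →
      1 ≤ X ∧ (∀ p ∈ P 0, p ≤ X ∧ p.Prime ∧ p % 3 = 2) ∧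
      (∀ i, i ≠ 0 → ∀ p ∈ P i, p ≤ X ∧ p.Prime ∧ p % 3 = 1) ∧
      (∀ i, (X : ℝ) ^ (6 / 7 + ε) ≤ ((P i).card : ℝ)) := by
    intro X P hP
    refine ⟨hP.1, fun p hp => ?_, fun i hi p hp => ?_, hP.2.2⟩
    · obtain ⟨h1, h2, h3⟩ := hP.2.1 0 p hp
      exact ⟨h1, h2, by rw [mod3 h3]; exact hr0⟩
    · obtain ⟨h1, h2, h3⟩ := hP.2.1 i p hp
      exact ⟨h1, h2, by rw [mod3 h3]; exact hr1 i hi⟩
  refine ⟨?_, fun V => ?_, fun h0 h1 => ⟨?_, ?_⟩⟩
  · intro t ht hi e he hT
    obtain ⟨k1, k2, -⟩ := crit hr0 hr1 ht hi he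
    exact weak k1 (k2.1 hT)
  · obtain ⟨C, -, h⟩ := Pool.Agent.NH3.FK.Cg.law (n := n) hε
      (fun a => ∀ e, Adm r e → (Good e a ↔ e ∈ V)) (fun a b hab => by
        refine forall_congr' fun e => imp_congr_right fun _ => ?_
        have := Pool.Agent.NH3.FK.Cg.good_congr (e := e) hab
        exact iff_congr this Iff.rfl)
    refine ⟨C, fun X P hP => ?_⟩
    obtain ⟨k1, k2, k3, k4⟩ := hsp hP
    have key := h X P k1 k2 k3 k4
    have e1 : ((Tuples P).filter fun t => ∀ e, Adm r e → (TrivialThree (num t e) ↔ e ∈ V)) =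
        ((Tuples P).filter fun t => ∀ e, Adm r e →
          (Good e (fun i j => Pool.Agent.Y703.CX.lam (t i) (t j)) ↔ e ∈ V)) := by
      refine filter_congr fun t ht => forall_congr' fun e => imp_congr_right fun he => ?_
      obtain ⟨m1, m2⟩ := mem_tup hP ht
      rw [(crit hr0 hr1 m1 m2 he).2.2]
    have eT : Tuples P = Pool.Agent.NH3.FK.Gr.Tup P := rfl
    rw [e1, eT]
    convert key
    rfl
  · intro t ht hi
    have hall : (∀ e, e 0 ≠ 0 → TrivialThree (num t e)) ↔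
        ∀ e : Fin (n + 1) → ZMod 3, e 0 ≠ 0 →
          Pool.Agent.NH3.FK.Cg.Good e fun i j => Pool.Agent.Y703.CX.lam (t i) (t j) :=
      forall_congr' fun e => imp_congr_right fun he =>
        (crit hr0 hr1 ht hi (adm_all h0 h1 he)).2.2
    rw [hall, Pool.Agent.NH3.FK.Cg.all_good]
    have hc : ∀ i j, i ≠ 0 → j ≠ i →
        (Pool.Agent.Y703.CX.lam (t i) (t j) = 0 ↔ IsCubeMod (t i) (t j)) := by
      intro i j hi0 hji
      refine lam_cube (ht i).1 (by rw [mod3 (ht i).2]; exact hr1 i hi0) fun hd => ?_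
      exact hji (hi ((Nat.prime_dvd_prime_iff_eq (ht i).1 (ht j).1).1 hd)).symm
    constructor
    · rintro ⟨a1, a2⟩ i hi0
      exact ⟨fun h => a1 i hi0 ((hc i 0 hi0 (Ne.symm hi0)).2 h), fun j hj hji =>
        (hc i j hi0 hji).1 (a2 i j hi0 hj hji)⟩
    · intro h
      exact ⟨fun i hi0 h' => (h i hi0).1 ((hc i 0 hi0 (Ne.symm hi0)).1 h'),
        fun i j hi0 hj hji => (hc i j hi0 hji).2 ((h i hi0).2 j hj hji)⟩
  · obtain ⟨C, -, h⟩ := Pool.Agent.NH3.FK.Cg.law (n := n) hε Pool.Agent.NH3.FK.Cg.All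
      (fun a b hab => Pool.Agent.NH3.FK.Cg.all_congr hab)
    refine ⟨C, fun X P hP => ?_⟩
    obtain ⟨k1, k2, k3, k4⟩ := hsp hP
    have key := h X P k1 k2 k3 k4
    rw [Pool.Agent.NH3.FK.Cg.frm_all] at key
    have e1 : ((Tuples P).filter fun t => ∀ e, e 0 ≠ 0 → TrivialThree (num t e) ∧
          WeakRankZero 0 (-432 * (num t e : ℤ) ^ 2)) =
        ((Tuples P).filter fun t => Pool.Agent.NH3.FK.Cg.All
          fun i j => Pool.Agent.Y703.CX.lam (t i) (t j)) := by
      refine filter_congr fun t ht => ?_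
      obtain ⟨m1, m2⟩ := mem_tup hP ht
      rw [← Pool.Agent.NH3.FK.Cg.all_good]
      refine forall_congr' fun e => imp_congr_right fun he => ?_
      obtain ⟨c1, c2, c3⟩ := crit hr0 hr1 m1 m2 (adm_all h0 h1 he)
      constructor
      · intro h
        exact c3.1 h.1
      · intro h
        have h2 := c3.2 h
        exact ⟨h2, weak c1 (c2.1 h2)⟩
    have eT : Tuples P = Pool.Agent.NH3.FK.Gr.Tup P := rfl
    rw [e1, eT]
    convert key

end Pool.Agent.Results.MP_8b7eba_nt.SparseCubicTuples
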